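import Mathlib
import Pool.Agent.MP_829a8f_lc.h56.Main

namespace Pool.Agent.Results.MP_829a8f_lc.ConnectedCharP

open Pool.Agent.MP_829a8f_lc FirstOrder

/-- An infinite `NIP_n` field of positive characteristic with a finite extension whose
multiplicative group has a proper definable subgroup of finite index has a nontrivial henselian
valuation ring. -/
theorem result (n p : ℕ) [Fact p.Prime] (K : Type) [Field K] [CharP K p] [Infinite K]
    (hK : NIPn n K) (L : Type) [Field L] [Algebra K L] [FiniteDimensional K L]
    [Ring.CompatibleRing L] (T : Subgroup Lˣ) (hT : T ≠ ⊤) (hf : T.FiniteIndex)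
    (hd : (Set.univ : Set L).Definable₁ Language.ring (Units.val '' (T : Set Lˣ))) :
    ∃ R : ValuationSubring K, R ≠ ⊤ ∧ HenselianLocalRing R :=
  H56.henselian_of_subgroup hK L T hf hT (fun S => S.U_of_definable hd)
    (Or.inl (by rw [ringChar.eq K p]; exact (Fact.out : p.Prime).ne_zero))

end Pool.Agent.Results.MP_829a8f_lc.ConnectedCharP
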