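import Mathlib
import Pool.Agent.MP_829a8f_lc.h56.Main

namespace Pool.Agent.Results.MP_829a8f_lc.FinitePowerClasses

open Pool.Agent.MP_829a8f_lc

/-- Shelah's conjecture for `NIP_n` fields all of whose finite separable extensions have finitely
many classes modulo `l`-th powers, for every prime `l` different from the characteristic. -/
theorem result (n : ℕ) (K : Type) [Field K] (hK : NIPn n K)
    (h : ∀ (L : Type) [Field L] [Algebra K L] [FiniteDimensional K L] [Algebra.IsSeparable K L]
      (l : ℕ), l.Prime → (l : K) ≠ 0 → (powMonoidHom l : Lˣ →* Lˣ).range.FiniteIndex) :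
    Finite K ∨ IsSepClosed K ∨ Module.finrank K (AlgebraicClosure K) = 2 ∨
      ∃ R : ValuationSubring K, R ≠ ⊤ ∧ HenselianLocalRing R :=
  H56.shelah_of_finite_index hK h

end Pool.Agent.Results.MP_829a8f_lc.FinitePowerClasses
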