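import Mathlib
import Pool.Agent.MP_829a8f_lc.h20.Her

namespace Pool.Agent.Results.MP_829a8f_lc.HereditarilyLarge

open FirstOrder Pool.Agent.MP_829a8f_lc

/-- Shelah's conjecture for the NIP fields `K` such that every infinite field interpretable in a
model of the theory of `K` is power-large. -/
theorem result (K : Type) [Field K] [Ring.CompatibleRing K] (hK : NIPn 1 K)
    (h : ∀ (M : Type) [Language.ring.Structure M], (K ≅[Language.ring] M) →
      ∀ (F : Type) [Field F] [Infinite F], Interprets M F → PowerLarge F) :
    Finite K ∨ IsSepClosed K ∨ Module.finrank K (AlgebraicClosure K) = 2 ∨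
      ∃ R : ValuationSubring K, R ≠ ⊤ ∧ HenselianLocalRing R :=
  H20.shelah_her hK h

end Pool.Agent.Results.MP_829a8f_lc.HereditarilyLarge
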