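import Mathlib
import Pool.Agent.MP_829a8f_lc.h20.Bridge

namespace Pool.Agent.Results.MP_829a8f_lc.StronglyDependent

open Pool.Agent.MP_829a8f_lc

/-- Shelah's conjecture for strongly dependent fields. -/
theorem result (K : Type) [Field K] (hK : StronglyDependent K) :
    Finite K ∨ IsSepClosed K ∨ Module.finrank K (AlgebraicClosure K) = 2 ∨
      ∃ R : ValuationSubring K, R ≠ ⊤ ∧ HenselianLocalRing R :=
  H20.shelah_strong hK

end Pool.Agent.Results.MP_829a8f_lc.StronglyDependent
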